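import Pool.Agent.R270.IenvBasic
import Pool.Agent.R270.L1

/-!
# The bounded part of the (I)-envelope need not be norm dense
-/

namespace Pool.Agent.Results.MP_a5b52c_an.IenvDensity

open Set Filter Topology
open R270.IenvBasic R270.L1

/-- The union of the (I)-envelopes of the bounded parts `A ∩ n B` of `A`. -/
def IenvBounded {𝕜 X : Type*} [RCLike 𝕜] [NormedAddCommGroup X] [NormedSpace 𝕜 X]
    (A : Set (StrongDual 𝕜 X)) : Set (StrongDual 𝕜 X) :=
  ⋃ n : ℕ, Ienv (A ∩ Metric.closedBall 0 (n : ℝ))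

/-- The index set. -/
abbrev I : Type := Option (ℕ × ℕ)

/-- The values of the functionals on the unit vectors. -/
noncomputable def bb (n : ℕ) (σ : ℝ) (α : ℕ → ℕ) : I → ℝ
  | none => σ * n
  | some (m, j) => if m < n ∨ j ≤ α m then 0 else -1

/-- The set of functionals. -/
def A : Set (StrongDual ℝ (X I)) :=
  {ξ | ∃ (n : ℕ) (σ : ℝ) (α : ℕ → ℕ), (σ = 1 ∨ σ = -1) ∧ ∀ i, ξ (e i) = bb n σ α i}

lemma bb_le (n : ℕ) (σ : ℝ) (hσ : σ = 1 ∨ σ = -1) (α : ℕ → ℕ) (i : I) :
    |bb n σ α i| ≤ (n : ℝ) + 1 := by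
  have hn : (0 : ℝ) ≤ n := Nat.cast_nonneg n
  have hσ1 : |σ| = 1 := by rcases hσ with rfl | rfl <;> simp
  rcases i with _ | ⟨m, j⟩
  · simp only [bb]
    rw [abs_mul, hσ1, one_mul, Nat.abs_cast]
    linarith
  · simp only [bb]
    split_ifs
    · rw [abs_zero]; linarith
    · rw [abs_neg, abs_one]; linarith

/-- The bounded parts stay away from zero. -/
lemma far (N : ℕ) (η : StrongDual ℝ (X I)) (hη : η ∈ Ienv (A ∩ Metric.closedBall 0 (N : ℝ))) :
    1 ≤ ‖η‖ := by
  by_contra hlt
  push Not at hlt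
  refine Ienv_seq hη (1 - ‖η‖) (by linarith) (fun j => e (some (N, j)))
    (fun j => (norm_e _).le) ?_
  rintro ξ ⟨⟨n, σ, α, hσ, hξ⟩, hball⟩
  have hnN : n ≤ N := by
    have h1 := abs_le_norm ξ none
    rw [hξ] at h1
    simp only [bb] at h1
    have hσ1 : |σ| = 1 := by rcases hσ with rfl | rfl <;> simp
    rw [abs_mul, hσ1, one_mul, Nat.abs_cast] at h1
    rw [mem_closedBall_zero_iff] at hball
    exact_mod_cast h1.trans hball
  filter_upwards [eventually_gt_atTop (α N)] with j hj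
  simp only [RCLike.re_to_real]
  have h1 : ξ (e (some (N, j))) = -1 := by
    rw [hξ]
    simp only [bb]
    rw [if_neg]
    push Not
    exact ⟨hnN, hj⟩
  have h2 := (abs_le.1 (abs_le_norm η (some (N, j)))).1
  rw [h1]
  linarith

/-- Each cover contains in its hull many almost vanishing functionals. -/
lemma exists_limit (F : ℕ → Set (StrongDual ℝ (X I))) (hF : ⋃ n, F n = A) (n : ℕ) (σ : ℝ)
    (hσ : σ = 1 ∨ σ = -1) :
    ∃ (h : ℕ) (ζ : StrongDual ℝ (X I)), ζ ∈ ⋃ k, wcl (convexHull ℝ (F k)) ∧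
      ζ (e none) = σ * n ∧ ∀ m j, -1 ≤ ζ (e (some (m, j))) ∧ ζ (e (some (m, j))) ≤ 0 ∧
        (ζ (e (some (m, j))) ≠ 0 → n ≤ m ∧ m < h) := by
  classical
  set fam : (ℕ → ℕ) → StrongDual ℝ (X I) := fun α => fn (bb n σ α) (n + 1) (bb_le n σ hσ α)
    with hfam
  have hfamA : ∀ α, fam α ∈ A := fun α => ⟨n, σ, α, hσ, fun i => fn_e _ _ _ i⟩
  obtain ⟨k, s, E, hE⟩ := baire (fun k : ℕ => {α : ℕ → ℕ | fam α ∈ F k}) (by
    rw [eq_univ_iff_forall]
    intro α
    have := hfamA α
    rw [← hF] at this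
    obtain ⟨k, hk⟩ := mem_iUnion.1 this
    exact mem_iUnion.2 ⟨k, hk⟩)
  -- the sequence of thresholds
  have hex : ∀ p : ℕ, ∃ α : ℕ → ℕ, fam α ∈ F k ∧ (∀ d ∈ E, α d = s d) ∧
      ∀ d, d ∉ E → d < p → α d = p := by
    intro p
    obtain ⟨α, hα, hα1, hα2⟩ := hE (fun d => if d ∈ E then s d else p) (Finset.range p)
      (fun d hd => if_pos hd)
    refine ⟨α, hα, hα1, fun d hd hdp => ?_⟩
    rw [hα2 d (Finset.mem_range.2 hdp), if_neg hd]
  choose α hα1 hα2 hα3 using hex
  set c : I → ℝ := fun i => match i with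
    | none => σ * n
    | some (m, j) => if m < n ∨ m ∉ E ∨ j ≤ s m then 0 else -1 with hc
  have hcb : ∀ i, |c i| ≤ (n : ℝ) + 1 := by
    intro i
    have hn : (0 : ℝ) ≤ n := Nat.cast_nonneg n
    have hσ1 : |σ| = 1 := by rcases hσ with rfl | rfl <;> simp
    rcases i with _ | ⟨m, j⟩
    · simp only [hc]
      rw [abs_mul, hσ1, one_mul, Nat.abs_cast]
      linarith
    · simp only [hc]
      split_ifs
      · rw [abs_zero]; linarith
      · rw [abs_neg, abs_one]; linarith
  have hlim : ∀ i, Tendsto (fun p => bb n σ (α p) i) atTop (𝓝 (c i)) := by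
    intro i
    rcases i with _ | ⟨m, j⟩
    · exact tendsto_const_nhds
    · refine tendsto_const_nhds.congr' ?_
      filter_upwards [eventually_gt_atTop (max m j)] with p hp
      simp only [hc, bb]
      by_cases hm : m ∈ E
      · rw [hα2 p m hm]
        simp only [hm, not_true_eq_false, false_or]
      · have h1 : α p m = p := hα3 p m hm (lt_of_le_of_lt (le_max_left _ _) hp)
        rw [if_pos (Or.inr (Or.inl hm)), h1,
          if_pos (Or.inr ((le_max_right _ _).trans hp.le))]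
  refine ⟨E.sup id + 1, fn c (n + 1) hcb, mem_iUnion.2 ⟨k, ?_⟩, ?_, ?_⟩
  · refine mem_wcl_of_tendsto _ (fun p => fam (α p)) (fun p => subset_convexHull ℝ _ (hα1 p)) _ ?_
    intro x
    exact tendsto_fn (fun p => bb n σ (α p)) c (n + 1) (fun p => bb_le n σ hσ (α p)) hcb hlim x
  · rw [fn_e]
  · intro m j
    rw [fn_e]
    simp only [hc]
    split_ifs with h
    · simp
    · push Not at h
      refine ⟨le_rfl, by norm_num, fun _ => ⟨h.1, ?_⟩⟩
      exact Nat.lt_succ_of_le (Finset.le_sup (f := id) h.2.1)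

/-- Telescoping of indicators of consecutive intervals. -/
lemma sum_indicator (a : ℕ → ℕ) (ha : Monotone a) (m L : ℕ) :
    ∑ i ∈ Finset.range L, (if a i ≤ m ∧ m < a (i + 1) then (1 : ℝ) else 0) ≤ 1 := by
  have key : ∀ L, ∑ i ∈ Finset.range L, (if a i ≤ m ∧ m < a (i + 1) then (1 : ℝ) else 0) =
      if a 0 ≤ m ∧ m < a L then 1 else 0 := by
    intro L
    induction L with
    | zero =>
      rw [Finset.range_zero, Finset.sum_empty, if_neg]
      omega
    | succ L ih =>
      rw [Finset.sum_range_succ, ih]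
      have h1 := ha (Nat.zero_le L)
      have h2 := ha (Nat.le_succ L)
      simp only [Nat.succ_eq_add_one] at h2
      by_cases h3 : m < a L
      · by_cases h4 : a 0 ≤ m
        · rw [if_pos ⟨h4, h3⟩, if_neg (by omega), if_pos (by omega)]; ring
        · rw [if_neg (by omega), if_neg (by omega), if_neg (by omega)]; ring
      · by_cases h4 : m < a (L + 1)
        · rw [if_neg (by omega), if_pos (by omega), if_pos (by omega)]; ring
        · rw [if_neg (by omega), if_neg (by omega), if_neg (by omega)]; ring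
  rw [key]
  split_ifs <;> norm_num

/-- Zero belongs to the (I)-envelope. -/
lemma zero_mem : (0 : StrongDual ℝ (X I)) ∈ Ienv A := by
  intro F hF
  choose! h ζ hζ1 hζ2 hζ3 using fun (n : ℕ) (σ : ℝ) (hσ : σ = 1 ∨ σ = -1) =>
    exists_limit F hF n σ hσ
  have hp : ((1 : ℝ) = 1 ∨ (1 : ℝ) = -1) := Or.inl rfl
  have hm : ((-1 : ℝ) = 1 ∨ (-1 : ℝ) = -1) := Or.inr rfl
  -- the symmetric averages
  set θ : ℕ → StrongDual ℝ (X I) := fun n => (1 / 2 : ℝ) • ζ n 1 + (1 / 2 : ℝ) • ζ n (-1) with hθ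
  set H : ℕ → ℕ := fun n => max n (max (h n 1) (h n (-1))) with hH
  set a : ℕ → ℕ := fun i => Nat.rec 0 (fun _ n => H n) i with ha
  have hasucc : ∀ i, a (i + 1) = H (a i) := fun i => rfl
  have hamono : Monotone a := monotone_nat_of_le_succ fun i => by
    rw [hasucc]; exact le_max_left _ _
  set S : Set (StrongDual ℝ (X I)) := ⋃ k, wcl (convexHull ℝ (F k)) with hS
  have hθS : ∀ n, θ n ∈ convexHull ℝ S := by
    intro n
    exact (convex_convexHull ℝ S) (subset_convexHull ℝ S (hζ1 n 1 hp))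
      (subset_convexHull ℝ S (hζ1 n (-1) hm)) (by norm_num) (by norm_num) (by norm_num)
  have hθnone : ∀ n, θ n (e none) = 0 := by
    intro n
    simp only [hθ, add_apply, smul_apply, smul_eq_mul, hζ2 n 1 hp, hζ2 n (-1) hm]
    ring
  have hθsome : ∀ n m j, |θ n (e (some (m, j)))| ≤
      if n ≤ m ∧ m < H n then (1 : ℝ) else 0 := by
    intro n m j
    have h1 := hζ3 n 1 hp m j
    have h2 := hζ3 n (-1) hm m j
    simp only [hθ, add_apply, smul_apply, smul_eq_mul]
    split_ifs with hc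
    · rw [abs_le]
      constructor <;> linarith [h1.1, h1.2.1, h2.1, h2.2.1]
    · have z1 : ζ n 1 (e (some (m, j))) = 0 := by
        by_contra hne
        have := h1.2.2 hne
        apply hc
        refine ⟨this.1, lt_of_lt_of_le this.2 ?_⟩
        exact (le_max_left _ _).trans (le_max_right _ _)
      have z2 : ζ n (-1) (e (some (m, j))) = 0 := by
        by_contra hne
        have := h2.2.2 hne
        apply hc
        refine ⟨this.1, lt_of_lt_of_le this.2 ?_⟩
        exact (le_max_right _ _).trans (le_max_right _ _)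
      rw [z1, z2]
      simp
  -- the averages
  rw [coverHull, Metric.mem_closure_iff]
  intro ε hε
  obtain ⟨L, hL⟩ := exists_nat_gt (1 / ε)
  have hLpos : 0 < (L : ℝ) := lt_trans (by positivity) hL
  set θθ : StrongDual ℝ (X I) := ∑ i ∈ Finset.range L, (1 / (L : ℝ)) • θ (a i) with hθθ
  have hmem : θθ ∈ convexHull ℝ S := by
    refine (convex_convexHull ℝ S).sum_mem (fun i _ => by positivity) ?_ fun i _ => hθS _
    rw [Finset.sum_const, Finset.card_range, nsmul_eq_mul]
    field_simp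
  refine ⟨θθ, hmem, ?_⟩
  have hnorm : ‖θθ‖ ≤ 1 / L := by
    refine norm_le _ _ (by positivity) fun i => ?_
    have e1 : θθ (e i) = (1 / (L : ℝ)) * ∑ k ∈ Finset.range L, θ (a k) (e i) := by
      rw [hθθ, ContinuousLinearMap.sum_apply, Finset.mul_sum]
      rfl
    rw [e1, abs_mul, abs_of_pos (by positivity : (0 : ℝ) < 1 / L)]
    refine mul_le_of_le_one_right (by positivity) ?_
    rcases i with _ | ⟨m, j⟩
    · simp [hθnone]
    · calc |∑ k ∈ Finset.range L, θ (a k) (e (some (m, j)))|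
          ≤ ∑ k ∈ Finset.range L, |θ (a k) (e (some (m, j)))| := Finset.abs_sum_le_sum_abs _ _
        _ ≤ ∑ k ∈ Finset.range L, (if a k ≤ m ∧ m < a (k + 1) then (1 : ℝ) else 0) :=
            Finset.sum_le_sum fun k _ => hθsome (a k) m j
        _ ≤ 1 := sum_indicator a hamono m L
  rw [dist_eq_norm, zero_sub, norm_neg]
  refine lt_of_le_of_lt hnorm ?_
  rw [div_lt_iff₀ hLpos]
  rw [div_lt_iff₀ hε] at hL
  linarith

/-- **Answer to Q1 (negative).** There are a (real) Banach space `X` and a set `A` in its dual such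
that the union of the (I)-envelopes of the bounded parts of `A` is not norm dense in the
(I)-envelope of `A`. -/
theorem result : ∃ (X : Type) (_ : NormedAddCommGroup X) (_ : NormedSpace ℝ X)
    (_ : CompleteSpace X) (A : Set (StrongDual ℝ X)),
    ¬ (Ienv A ⊆ closure (IenvBounded A)) := by
  refine ⟨X I, inferInstance, inferInstance, inferInstance, A, fun hsub => ?_⟩
  have h1 := hsub zero_mem
  rw [Metric.mem_closure_iff] at h1
  obtain ⟨η, hη, hd⟩ := h1 1 one_pos
  obtain ⟨N, hN⟩ := mem_iUnion.1 hη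
  have h2 := far N η hN
  rw [dist_eq_norm, zero_sub, norm_neg] at hd
  linarith

end Pool.Agent.Results.MP_a5b52c_an.IenvDensity
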